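import Pool.Agent.H304R6.SchemeTwistConv

set_option autoImplicit false

namespace Pool.Agent.Results.MP_2b9663_nt.DirichletTwists

open Complex Filter Topology AlgebraicGeometry Pool.Agent.H341R2 Pool.Agent.H304R6

open Classical in
/-- Let `X` be a scheme over `ℤ` (a projective model of a smooth projective variety over `ℚ`), and
let `b` be a bound for the number of Frobenius eigenvalues of weight `i` at the primes `p ∉ S`.
For a Dirichlet character `χ` let `L(Hⁱ(X) ⊗ χ, s)` be the Euler product over `p ∉ S` of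
`∏ (1 - χ(p) β p^{-s})^{-mult β}`, `β` running over the Frobenius eigenvalues of weight `i` at `p`.

(1) The products converge and do not vanish for `Re s > i/2 + 1`.
(2) For every finite set `F` of pairs `(χ, τ)`, `χ` primitive (of any modulus), `τ` real, and every
`d > 0`, for all small `ε > 0`,
`∑_{(χ,τ) ∈ F} (log |L(Hⁱ(X) ⊗ χ, i/2 + 1 + ε + iτ)|)² ≤ (b² + d) (log (1/ε))²`.
(3) If `L(Hⁱ(X) ⊗ χ, s)` extends meromorphically to a neighbourhood of `i/2 + 1 + iτ`, for every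
`(χ, τ) ∈ F`, the orders `r (χ, τ)` of the extensions there satisfy `∑ r² ≤ b²`. -/
theorem result (X : Scheme.{0}) (i b : ℕ) (S : Finset Nat.Primes)
    (hb : ∀ p ∉ S, weightNumber X p i ≤ b) :
    (∀ (N : ℕ) (χ : DirichletCharacter ℂ N) (s : ℂ), (i : ℝ) / 2 + 1 < s.re →
      (Multipliable fun p : Nat.Primes =>
        if p ∈ S then (1 : ℂ) else twistEulerFactor X i χ p s) ∧
        schemeTwistL X i S χ s ≠ 0) ∧
    ∀ F : Finset ((Σ N : ℕ, DirichletCharacter ℂ N) × ℝ),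
      (∀ k ∈ F, k.1.1 ≠ 0 ∧ k.1.2.IsPrimitive) →
      (∀ d : ℝ, 0 < d → ∀ᶠ ε : ℝ in 𝓝[>] 0,
        ∑ k ∈ F, (Real.log ‖schemeTwistL X i S k.1.2 ((i : ℂ) / 2 + 1 + ε + k.2 * I)‖) ^ 2 ≤
          ((b : ℝ) ^ 2 + d) * (Real.log (1 / ε)) ^ 2) ∧
      ∀ Λ : (Σ N : ℕ, DirichletCharacter ℂ N) × ℝ → ℂ → ℂ,
        (∀ k ∈ F, MeromorphicAt (Λ k) ((i : ℂ) / 2 + 1 + k.2 * I)) →
        (∀ k ∈ F, ∀ᶠ s in 𝓝 ((i : ℂ) / 2 + 1 + k.2 * I : ℂ), (i : ℝ) / 2 + 1 < s.re →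
          Λ k s = schemeTwistL X i S k.1.2 s) →
        ∃ r : (Σ N : ℕ, DirichletCharacter ℂ N) × ℝ → ℤ,
          (∀ k ∈ F, meromorphicOrderAt (Λ k) ((i : ℂ) / 2 + 1 + k.2 * I) = r k) ∧
          (∑ k ∈ F, (r k) ^ 2) ≤ (b : ℤ) ^ 2 := by
  refine ⟨fun N χ s hs => convergesX hb χ hs, fun F hF => ?_⟩
  obtain ⟨h1, h2⟩ := abstract_edge (tX X i S) b (norm_tX_le hb) F hF
    (fun k s => schemeTwistL X i S k.1.2 s) ((i : ℂ) / 2 + 1) (b * K2)
    (fun k _ ε hε => nearX hb k hε)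
  refine ⟨h1, fun Λ hΛ hΛL => ?_⟩
  have hre : ((i : ℂ) / 2 + 1).re = (i : ℝ) / 2 + 1 := by simp
  obtain ⟨r, h3, h4⟩ := h2 Λ hΛ (fun k hk => by rw [hre]; exact hΛL k hk)
  exact ⟨r, h3, by exact_mod_cast h4⟩

end Pool.Agent.Results.MP_2b9663_nt.DirichletTwists
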