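import Pool.Agent.H341R2.OrderUpper

set_option autoImplicit false

namespace Pool.Agent.Results.MP_2b9663_nt.EvenPowers

open Complex Filter Topology ComplexConjugate Polynomial Pool.Agent.H341R2

theorem E_finsupp (S : Finset Nat.Primes) (r : Nat.Primes → ℝ) (hr : ∀ p, p ∉ S → r p = 0)
    (b : ℝ) (hb : ∀ p, |r p| ≤ b) {ε : ℝ} (hε : 0 < ε) : |E ε r| ≤ S.card * b := by
  rw [E, tsum_eq_sum (s := S) fun p hp => by rw [hr p hp, zero_mul]]
  refine (Finset.abs_sum_le_sum_abs _ _).trans ?_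
  rw [← nsmul_eq_mul]
  refine Finset.sum_le_card_nsmul _ _ _ fun p _ => ?_
  have hp1 : (1 : ℝ) ≤ p := by exact_mod_cast p.2.one_lt.le
  have h1 : (p : ℝ) ^ (-(1 + ε)) ≤ 1 := Real.rpow_le_one_of_one_le_of_nonpos hp1 (by linarith)
  rw [abs_mul, abs_of_nonneg (w_nonneg ε p)]
  calc |r p| * (p : ℝ) ^ (-(1 + ε)) ≤ |r p| * 1 :=
        mul_le_mul_of_nonneg_left h1 (abs_nonneg _)
    _ ≤ b := by rw [mul_one]; exact hb p

theorem aa_lower {f : ℤ[X]} {n i : ℕ} (hi : Even i) {D : ℤ} {p : Nat.Primes}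
    (hp : GoodPrime f D p) : (n.choose (i / 2) : ℝ) ≤ (aa n i f D 0 p).re := by
  have hp0 : (0 : ℝ) < p := by exact_mod_cast p.2.pos
  rw [aa, if_pos hp]
  simp only [Complex.ofReal_zero, zero_mul, neg_zero, Complex.cpow_zero, mul_one,
      Complex.ofReal_re]
  have h1 := coeff_even_lower (traceH1 f D p 1) ((p : ℤ) ^ 1) (by positivity) n i hi
  rw [← traceH, pow_one] at h1
  have h2 : (n.choose (i / 2) : ℝ) * (p : ℝ) ^ (i / 2) ≤ (traceH n i f D p 1 : ℝ) := by
    exact_mod_cast h1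
  have h3 : ((i / 2 : ℕ) : ℝ) = (i : ℝ) / 2 := Nat.cast_div_charZero hi.two_dvd
  calc (n.choose (i / 2) : ℝ)
      = (n.choose (i / 2) : ℝ) * (p : ℝ) ^ (i / 2) * (p : ℝ) ^ (-((i : ℝ) / 2)) := by
        rw [mul_assoc, ← Real.rpow_natCast, ← Real.rpow_add hp0, h3, add_neg_cancel,
          Real.rpow_zero, mul_one]
    _ ≤ _ := mul_le_mul_of_nonneg_right h2 (by positivity)

/-- For every hyperelliptic curve `C_D : D y² = f(x)` over `ℚ`, every `n` and every even `i`: a
meromorphic extension of `L(Hⁱ((C_D)ⁿ), s)` to a neighbourhood of `s₀ = i/2 + 1` does not vanish at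
`s₀`; its order there is at most `-C(n, i/2)`. -/
theorem result (f : ℤ[X]) (hf : (f.map (Int.castRingHom ℚ)).Separable) (hd : 1 ≤ f.natDegree)
    (D : ℤ) (hD : D ≠ 0) (n i : ℕ) (hi : Even i) (B : Nat.Primes → ℂ[X])
    (hB : ∀ p, (B p).coeff 0 = 1) (Λ : ℂ → ℂ) (hΛ : MeromorphicAt Λ ((i : ℂ) / 2 + 1))
    (hΛL : ∀ᶠ s in 𝓝 ((i : ℂ) / 2 + 1), (i : ℝ) / 2 + 1 < s.re → Λ s = LFun n i f D B s) :
    ∃ m : ℤ, meromorphicOrderAt Λ ((i : ℂ) / 2 + 1) = m ∧ m ≤ -(n.choose (i / 2) : ℤ) := by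
  have e : ((i : ℂ) / 2 + 1) = ((i : ℂ) / 2 + 1) + ((0 : ℝ) : ℂ) * I := by simp
  rw [e] at hΛ hΛL ⊢
  obtain ⟨m, h1, C, h2⟩ := E_le_of_order hf hd n i hD B hB 0 Λ hΛ hΛL
  refine ⟨m, h1, ?_⟩
  set c : ℝ := (n.choose (i / 2) : ℝ) with hc
  have hc0 : 0 ≤ c := by positivity
  set S := (finite_bad hf hD).toFinset with hS
  have hlow : ∀ ε : ℝ, 0 < ε →
      c * lam ε - S.card * c ≤ E ε fun p => (aa n i f D 0 p).re := by
    intro ε hε
    classical
    have hbd : ∀ p, |(aa n i f D 0 p).re| ≤ KK f n := fun p =>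
      (Complex.abs_re_le_norm _).trans (norm_aa_le hd n i D 0 p)
    have hr := E_finsupp S (fun p => if GoodPrime f D p then 0 else c)
      (by
        intro p hp
        rw [hS, Set.Finite.mem_toFinset, Set.mem_ofPred_eq, not_not] at hp
        rw [if_pos hp]) c
      (by
        intro p
        split_ifs
        · simpa using hc0
        · rw [abs_of_nonneg hc0]) hε
    have hle : ∀ p, c ≤ (aa n i f D 0 p).re + if GoodPrime f D p then 0 else c := by
      intro p
      split_ifs with hp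
      · rw [add_zero]
        exact aa_lower hi hp
      · rw [aa, if_neg hp]
        simp
    have h3 : c * lam ε ≤ E ε (fun p => (aa n i f D 0 p).re +
        if GoodPrime f D p then 0 else c) := by
      have hb' : ∀ p : Nat.Primes, |(if GoodPrime f D p then 0 else c : ℝ)| ≤ c := fun p => by
        split_ifs
        · simpa using hc0
        · rw [abs_of_nonneg hc0]
      rw [lam, E, ← tsum_mul_left]
      refine Summable.tsum_le_tsum (fun p => ?_)
        ((summable_prime_rpow (by linarith)).mul_left c)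
        (summable_E hε (B := KK f n + c) fun p =>
          (abs_add_le _ _).trans (add_le_add (hbd p) (hb' p)))
      exact mul_le_mul_of_nonneg_right (hle p) (w_nonneg ε p)
    rw [E_add hε hbd (B' := c) (fun p => by
        split_ifs
        · simpa using hc0
        · rw [abs_of_nonneg hc0])] at h3
    have h4 := (abs_le.1 hr).2
    linarith
  by_contra hcon
  push Not at hcon
  have hm : (1 : ℝ) ≤ m + c := by
    have : (1 : ℤ) ≤ m + (n.choose (i / 2) : ℤ) := by omega
    rw [hc]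
    exact_mod_cast this
  obtain ⟨ε, ⟨h3, h4⟩, h5⟩ := ((h2.and (lam_tendsto.eventually_gt_atTop
    (|C| + S.card * c + 1))).and self_mem_nhdsWithin).exists
  have hε : (0 : ℝ) < ε := h5
  have h6 := hlow ε hε
  have h7 : 0 ≤ lam ε := by
    have := abs_nonneg C
    have h8 : (0 : ℝ) ≤ S.card * c := mul_nonneg (Nat.cast_nonneg _) hc0
    linarith
  have h8 : lam ε ≤ (m + c) * lam ε := by nlinarith
  have h9 := le_abs_self C
  nlinarith

end Pool.Agent.Results.MP_2b9663_nt.EvenPowers
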