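import Pool.Agent.H341R2.Vanish

set_option autoImplicit false

namespace Pool.Agent.Results.MP_2b9663_nt.QuadraticTwists

open Complex Filter Topology ComplexConjugate Polynomial Pool.Agent.H341R2

/-- `D` is an exceptional twist in degree `i` -/
def Exceptional (n : ℕ) (f : ℤ[X]) (i : ℕ) (D : ℤ) : Prop :=
  ∃ B : Nat.Primes → ℂ[X], (∀ p, (B p).coeff 0 = 1) ∧
    ∃ Λ : ℂ → ℂ, MeromorphicAt Λ (i / 2 + 1) ∧
      (∀ᶠ s in 𝓝 (i / 2 + 1 : ℂ), (i / 2 + 1 : ℝ) < s.re → Λ s = LFun n i f D B s) ∧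
      0 < meromorphicOrderAt Λ (i / 2 + 1)

theorem E_le {n : ℕ} {f : ℤ[X]} (hf : (f.map (Int.castRingHom ℚ)).Separable)
    (hd : 3 ≤ f.natDegree) {i : ℕ} {D : ℤ} (hD : Squarefree D) (h : Exceptional n f i D) :
    ∃ C : ℝ, ∀ᶠ ε : ℝ in 𝓝[>] 0, (E ε fun p => (aa n i f D 0 p).re) ≤ -lam ε + C := by
  obtain ⟨B, hB, Λ, h1, h2, h3⟩ := h
  have e : (i / 2 + 1 : ℂ) = (i / 2 + 1 : ℂ) + ((0 : ℝ) : ℂ) * I := by simp
  rw [e] at h1 h2 h3
  exact E_le_of_vanish hf (by omega) n i hD.ne_zero B hB 0 Λ h1 h2 h3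

theorem even_not {n : ℕ} {f : ℤ[X]} (hf : (f.map (Int.castRingHom ℚ)).Separable)
    (hd : 3 ≤ f.natDegree) {i : ℕ} (hi : Even i) {D : ℤ} (hD : Squarefree D) :
    ¬ Exceptional n f i D := by
  intro h
  obtain ⟨C, hC⟩ := E_le hf hd hD h
  obtain ⟨ε, h1, h2⟩ := (hC.and (lam_tendsto.eventually_gt_atTop C)).exists
  have h3 : 0 ≤ E ε fun p => (aa n i f D 0 p).re :=
    E_nonneg fun p => aa_re_nonneg n i hi p
  linarith

theorem odd_bound {n : ℕ} {f : ℤ[X]} (hf : (f.map (Int.castRingHom ℚ)).Separable)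
    (hd : 3 ≤ f.natDegree) {i : ℕ} (hi : Odd i) (K : Finset ℤ)
    (hK : ∀ D ∈ K, Squarefree D ∧ Exceptional n f i D) :
    K.card ≤ (5 * f.natDegree + 3) ^ (2 * n) := by
  classical
  have hKinj : ∀ a ∈ K, ∀ b ∈ K, ((a, (0 : ℝ)) : ℤ × ℝ) = (b, 0) → a = b :=
    fun a _ b _ h => (Prod.ext_iff.1 h).1
  have h1 := twist_bessel (aa n i f 1 0) (KK f n) (fun p => norm_aa_le (by omega) n i 1 0 p)
    (K.image fun D => ((D, (0 : ℝ)) : ℤ × ℝ))
    (by
      intro k hk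
      obtain ⟨D, hD, rfl⟩ := Finset.mem_image.1 hk
      exact (hK D hD).1) (fun _ => 1)
    (by
      intro k hk
      obtain ⟨D, hD, rfl⟩ := Finset.mem_image.1 hk
      obtain ⟨C, hC⟩ := E_le hf hd (hK D hD).1 (hK D hD).2
      refine ⟨C, ?_⟩
      filter_upwards [hC] with ε hε
      have h2 : (fun p => (aa n i f 1 0 p * conj (vv (D, 0) p)).re) =
          fun p => (aa n i f D 0 p).re := by
        funext p
        rw [← aa_twist n i hi 0 p]
      rw [h2]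
      linarith)
  rw [Finset.sum_image (fun a ha b hb h => hKinj a ha b hb h)] at h1
  simp only [one_pow, Finset.sum_const, nsmul_eq_mul, mul_one] at h1
  have h2 : (KK f n) ^ 2 = (((5 * f.natDegree + 3) ^ (2 * n) : ℕ) : ℝ) := by
    rw [KK]
    push_cast
    rw [← pow_mul, mul_comm n 2]
  rw [h2] at h1
  exact_mod_cast h1

/-- For every squarefree `f ∈ ℤ[x]` of degree `d ≥ 3` and every `n`, for all but at most
`n (5d+3)^{2n}` squarefree integers `D` the variety `X = (C_D)ⁿ`, `C_D : D y² = f(x)`, has the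
property that for no `i` does `L(Hⁱ(X), s)` have a meromorphic extension to a neighbourhood of
`s₀ = i/2 + 1` with a zero at `s₀`. -/
theorem result (f : ℤ[X]) (hf : (f.map (Int.castRingHom ℚ)).Separable) (hd : 3 ≤ f.natDegree)
    (n : ℕ) :
    {D : ℤ | Squarefree D ∧ ∃ i ≤ 2 * n, ∃ B : Nat.Primes → ℂ[X], (∀ p, (B p).coeff 0 = 1) ∧
      ∃ Λ : ℂ → ℂ, MeromorphicAt Λ ((i : ℂ) / 2 + 1) ∧
        (∀ᶠ s in 𝓝 ((i : ℂ) / 2 + 1), (i : ℝ) / 2 + 1 < s.re → Λ s = LFun n i f D B s) ∧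
        0 < meromorphicOrderAt Λ ((i : ℂ) / 2 + 1)}.encard ≤
      ((n * (5 * f.natDegree + 3) ^ (2 * n) : ℕ) : ℕ∞) := by
  classical
  set N := (5 * f.natDegree + 3) ^ (2 * n) with hN
  have hone : ∀ i, Odd i → {D : ℤ | Squarefree D ∧ Exceptional n f i D}.encard ≤ (N : ℕ∞) := by
    intro i hi
    by_contra hcon
    push Not at hcon
    have h1 : ((N + 1 : ℕ) : ℕ∞) ≤ {D : ℤ | Squarefree D ∧ Exceptional n f i D}.encard := by
      exact_mod_cast Order.add_one_le_of_lt hcon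
    obtain ⟨T, hT1, hT2⟩ := Set.exists_subset_encard_eq h1
    have hTfin : T.Finite := Set.finite_of_encard_eq_coe hT2
    have h2 := odd_bound hf hd hi hTfin.toFinset fun D hD => hT1 (hTfin.mem_toFinset.1 hD)
    rw [← Set.ncard_eq_toFinset_card T hTfin, Set.ncard, hT2, ENat.toNat_natCast] at h2
    omega
  have hsub : {D : ℤ | Squarefree D ∧ ∃ i ≤ 2 * n, Exceptional n f i D} ⊆
      ⋃ j ∈ Finset.range n, {D : ℤ | Squarefree D ∧ Exceptional n f (2 * j + 1) D} := by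
    rintro D ⟨hD, i, hi, hex⟩
    rcases Nat.even_or_odd i with h | h
    · exact absurd hex (even_not hf hd h hD)
    · obtain ⟨j, rfl⟩ := h
      simp only [Set.mem_iUnion, Finset.mem_range]
      exact ⟨j, by omega, hD, hex⟩
  refine (Set.encard_le_encard hsub).trans ?_
  refine (Finset.set_encard_biUnion_le _ _).trans ?_
  refine (Finset.sum_le_sum fun j _ => hone (2 * j + 1) ⟨j, rfl⟩).trans ?_
  simp

end Pool.Agent.Results.MP_2b9663_nt.QuadraticTwists
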